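import Pool.Agent.Run7.h146.Met.I2
import Pool.Agent.Run7.h116.Met.PO2

/-!
# Piece HB: the number of the meteors which meet the ghost is tight
-/

set_option autoImplicit false

open MeasureTheory Filter Topology ENNReal

namespace Run7.h212.Met.HB

open Run7.h146.Met

theorem lint_pp {P : ℝ → ℝ} (hP : Antitone P) (h0 : ∀ t, 0 ≤ P t) (h1 : ∀ t, P t ≤ 1)
    (hs : Summable fun j : ℕ => (2 : ℝ) ^ j * P ((2 : ℝ) ^ j)) :
    ∫⁻ s in Set.Ioi (0 : ℝ), ENNReal.ofReal (P (s / 2)) < ⊤ := by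
  have hsub : Set.Ioi (0 : ℝ) ⊆ Set.Ioo (0 : ℝ) 2 ∪
      ⋃ j : ℕ, Set.Ico (2 * (2 : ℝ) ^ j) (2 * (2 : ℝ) ^ (j + 1)) := by
    intro s hs0
    rw [Set.mem_Ioi] at hs0
    rcases lt_or_ge s 2 with h | h
    · exact Or.inl ⟨hs0, h⟩
    · right
      obtain ⟨n, hn1, hn2⟩ := exists_nat_pow_near (x := s / 2) (y := 2) (by linarith) one_lt_two
      rw [Set.mem_iUnion]
      exact ⟨n, by linarith, by linarith⟩
  calc ∫⁻ s in Set.Ioi (0 : ℝ), ENNReal.ofReal (P (s / 2)) ≤
      ∫⁻ s in Set.Ioo (0 : ℝ) 2 ∪ ⋃ j : ℕ, Set.Ico (2 * (2 : ℝ) ^ j) (2 * (2 : ℝ) ^ (j + 1)),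
        ENNReal.ofReal (P (s / 2)) := lintegral_mono_set hsub
    _ ≤ (∫⁻ s in Set.Ioo (0 : ℝ) 2, ENNReal.ofReal (P (s / 2))) +
        ∫⁻ s in ⋃ j : ℕ, Set.Ico (2 * (2 : ℝ) ^ j) (2 * (2 : ℝ) ^ (j + 1)),
        ENNReal.ofReal (P (s / 2)) := lintegral_union_le _ _ _
    _ ≤ 2 + ∑' j : ℕ, ENNReal.ofReal (2 * ((2 : ℝ) ^ j * P ((2 : ℝ) ^ j))) := by
        gcongr
        · calc ∫⁻ s in Set.Ioo (0 : ℝ) 2, ENNReal.ofReal (P (s / 2)) ≤
              ∫⁻ s in Set.Ioo (0 : ℝ) 2, 1 := lintegral_mono fun s => by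
                rw [← ENNReal.ofReal_one]
                exact ENNReal.ofReal_le_ofReal (h1 _)
            _ = 2 := by
                rw [setLIntegral_one, Real.volume_Ioo]
                norm_num
        · refine (lintegral_iUnion_le _ _).trans (ENNReal.tsum_le_tsum fun j => ?_)
          calc ∫⁻ s in Set.Ico (2 * (2 : ℝ) ^ j) (2 * (2 : ℝ) ^ (j + 1)), ENNReal.ofReal (P (s / 2)) ≤
              ∫⁻ s in Set.Ico (2 * (2 : ℝ) ^ j) (2 * (2 : ℝ) ^ (j + 1)),
                ENNReal.ofReal (P ((2 : ℝ) ^ j)) := setLIntegral_mono' measurableSet_Ico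
                fun s hs => ENNReal.ofReal_le_ofReal (hP (by have := hs.1; linarith))
            _ = ENNReal.ofReal (2 * ((2 : ℝ) ^ j * P ((2 : ℝ) ^ j))) := by
                rw [setLIntegral_const, Real.volume_Ico, ← ENNReal.ofReal_mul (h0 _)]
                congr 1
                ring
    _ < ⊤ := by
        refine ENNReal.add_lt_top.2 ⟨by norm_num, ?_⟩
        have h2 := (hs.mul_left 2).tsum_ofReal_lt_top
        exact h2

theorem lint_exp (C : ℝ) : ∫⁻ s in Set.Ioi (0 : ℝ), ENNReal.ofReal (C * Real.exp (-s)) < ⊤ := by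
  have h1 := (exp_neg_integrableOn_Ioi (0 : ℝ) one_pos).const_mul C
  have h2 := h1.lintegral_lt_top
  refine lt_of_le_of_lt (le_of_eq ?_) h2
  refine lintegral_congr fun s => ?_
  simp

theorem mB_le {d : ℕ} {B : Set (V d)} (hs : IsProbabilityMeasure (sig d)) :
    mB B ≤ (volume : Measure (V d)).prod (sig d) := by
  unfold mB
  have : (volume.restrict B).prod (sig d) =
      ((volume : Measure (V d)).prod (sig d)).restrict (B ×ˢ Set.univ) := by
    rw [← Measure.prod_restrict, Measure.restrict_univ]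
  rw [this]
  exact Measure.restrict_le_self

theorem prod_fst {d : ℕ} (hs : IsProbabilityMeasure (sig d)) (r : ℝ) :
    ((volume : Measure (V d)).prod (sig d)) {y | ‖y.1‖ ≤ r} = volume (Metric.closedBall (0 : V d) r) := by
  have h : {y : X d | ‖y.1‖ ≤ r} = (Metric.closedBall (0 : V d) r) ×ˢ Set.univ := by
    ext y
    simp
  rw [h, Measure.prod_prod, measure_univ, mul_one]

theorem ae_unit {d : ℕ} (B : Set (V d)) (h0 : sig d {v | ‖v‖ ≠ 1} = 0)
    (hs : IsProbabilityMeasure (sig d)) : ∀ᵐ y ∂(mB B), ‖y.2‖ = 1 := by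
  rw [ae_iff]
  have h : {y : X d | ¬ ‖y.2‖ = 1} = Set.univ ×ˢ {v | ‖v‖ ≠ 1} := by
    ext y
    simp
  rw [h]
  unfold mB
  rw [Measure.prod_prod, h0, mul_zero]

open Classical in
/-- the functional -/
noncomputable def hf {d : ℕ} (ε : ℝ) (z : X d) (t : ℝ) (y : X d) (F : Finset (X d)) : ℝ≥0∞ :=
  (if ‖y.1‖ ≤ 6 * ε then 1 else 0) +
    (if ct ε z y ≤ ENNReal.ofReal t ∧ ct ε z y ≤ dt ε F y then 1 else 0)

theorem hf_tm (hCT : S_CT) (hDM : S_DM) {d : ℕ} {ε : ℝ} (hε : 0 < ε) (z : X d) (t : ℝ) :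
    TM (hf ε z t) := by
  rw [Run7.h116.Met.tm_iff]
  intro n
  have h1 : Measurable fun p : X d × (Fin n → X d) => dt ε (Run7.h116.Met.im n p.2) p.1 :=
    Run7.h116.Met.tm_iff.1 (hDM d ε hε) n
  have hg : Measurable fun p : X d × (Fin n → X d) => ((z, p.1) : X d × X d) :=
    measurable_const.prodMk measurable_fst
  have h0 := (hCT d ε hε).1
  have h2 : Measurable fun p : X d × (Fin n → X d) => ct ε z p.1 := by
    have h3 := h0.comp hg
    rw [Function.comp_def] at h3
    exact h3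
  have m1 : MeasurableSet {p : X d × (Fin n → X d) | ‖p.1.1‖ ≤ 6 * ε} :=
    measurableSet_le (measurable_fst.fst.norm) measurable_const
  have m2 : MeasurableSet {p : X d × (Fin n → X d) | ct ε z p.1 ≤ ENNReal.ofReal t} :=
    measurableSet_le h2 measurable_const
  have m3 : MeasurableSet {p : X d × (Fin n → X d) | ct ε z p.1 ≤ dt ε (Run7.h116.Met.im n p.2) p.1} :=
    measurableSet_le h2 h1
  unfold hf
  exact (Measurable.ite m1 measurable_const measurable_const).add
    (Measurable.ite (m2.inter m3) measurable_const measurable_const)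

open Classical in
theorem hf_sum {d : ℕ} (ε : ℝ) (z : X d) (t : ℝ) (F : Finset (X d)) :
    ∑ y ∈ F, hf ε z t y F = (((F.filter fun y => ‖y.1‖ ≤ 6 * ε).card + (hits ε z t F).card : ℕ) : ℝ≥0∞) := by
  unfold hf hits
  rw [Finset.sum_add_distrib, Finset.sum_boole, Finset.sum_boole]
  push_cast
  congr

theorem t_HB : S_PO1 → S_PO2 → S_PO3 → S_MK → S_MB → S_CT → S_CM → S_DM → S_MEAS → S_HB := by
  classical
  intro hPO hPO2 hPO3 hMK hMB hCT hCM hDM hME d ε κ C r₀ hd hε hcore hsum
  obtain ⟨s1, s2, -, s4⟩ := hMB d hd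
  obtain ⟨C', hC', c1, -⟩ := hCM d ε hd hε
  obtain ⟨l1, l2, l3, l4, -, -⟩ := hcore.loc
  obtain ⟨-, -, -, -, -, a6, -⟩ := hME d ε hd hε
  obtain ⟨k1, k2, k3, k4, k5, k6, k7⟩ := hCT d ε hε
  have hball : ∀ (x : V d) (R : ℝ), volume (Metric.ball x R) ≠ ⊤ := fun x R =>
    Metric.isBounded_ball.measure_lt_top.ne
  have hcball : ∀ (x : V d) (R : ℝ), volume (Metric.closedBall x R) ≠ ⊤ := fun x R =>
    Metric.isBounded_closedBall.measure_lt_top.ne
  set φ : ℝ≥0∞ → ℝ≥0∞ := fun u => ENNReal.ofReal (pp d ε (u.toReal / 2) +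
    C * Real.exp (-u.toReal)) with hφ
  have hφm : Measurable φ := by
    refine ENNReal.measurable_ofReal.comp (Measurable.add ?_ ?_)
    · exact hcore.anti.measurable.comp (ENNReal.measurable_toReal.div_const 2)
    · exact (Real.measurable_exp.comp ENNReal.measurable_toReal.neg).const_mul C
  set I₁ := ∫⁻ s in Set.Ioi (0 : ℝ), ENNReal.ofReal (pp d ε (s / 2)) with hI₁
  set I₂ := ∫⁻ s in Set.Ioi (0 : ℝ), ENNReal.ofReal (C * Real.exp (-s)) with hI₂
  have hI₁f : I₁ < ⊤ := lint_pp hcore.anti (fun t => (hcore.rng t).1) (fun t => (hcore.rng t).2) hsum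
  have hI₂f : I₂ < ⊤ := lint_exp C
  have hφI : ∫⁻ s in Set.Ioi (0 : ℝ), φ (ENNReal.ofReal s) ≤ I₁ + I₂ := by
    rw [hI₁, hI₂, ← lintegral_add_left]
    · refine setLIntegral_mono' measurableSet_Ioi fun s hs => ?_
      rw [hφ]
      simp only
      rw [ENNReal.toReal_ofReal (le_of_lt hs)]
      exact ENNReal.ofReal_add_le
    · exact ENNReal.measurable_ofReal.comp (hcore.anti.measurable.comp (measurable_id.div_const 2))
  set E₁ : ℝ≥0∞ := volume (Metric.closedBall (0 : V d) (6 * ε)) +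
    (volume (Metric.closedBall (0 : V d) (2 * ε)) + ENNReal.ofReal C' * (I₁ + I₂)) with hE₁
  have hE₁f : 2 * E₁ ≠ ⊤ := by
    refine ENNReal.mul_ne_top (by norm_num) ?_
    rw [hE₁]
    refine ENNReal.add_ne_top.2 ⟨hcball _ _, ENNReal.add_ne_top.2 ⟨hcball _ _, ?_⟩⟩
    exact ENNReal.mul_ne_top ENNReal.ofReal_ne_top (ENNReal.add_ne_top.2 ⟨hI₁f.ne, hI₂f.ne⟩)
  obtain ⟨K, hK⟩ := ENNReal.exists_nat_gt hE₁f
  refine ⟨2 * K, fun t ht => ⟨2 * t + 2 * ε + (|r₀| + t / (2 * κ)), fun Q hQ v hv => ?_⟩⟩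
  set z : X d := ((0 : V d), v) with hz
  obtain ⟨f1, f2, -, f4⟩ := s4 (Metric.ball (0 : V d) Q) measurableSet_ball (hball _ _)
  have hprob := (hPO d (mB (Metric.ball (0 : V d) Q))).1
  have hTM := hf_tm hCT hDM hε z t
  have hmk := (hMK d (mB (Metric.ball (0 : V d) Q))).1 (hf ε z t) hTM
  -- pointwise bound
  have hpt : ∀ y : X d, ‖y.2‖ = 1 → ∫⁻ F, hf ε z t y (ins y F) ∂(poi (mB (Metric.ball (0 : V d) Q))) ≤
      (if ‖y.1‖ ≤ 6 * ε then 1 else 0) + ((if ‖y.1‖ ≤ 2 * ε then 1 else 0) +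
        (if 0 < ct ε z y ∧ ct ε z y ≠ ⊤ then φ (ct ε z y) else 0)) := by
    intro y hy
    unfold hf
    rw [lintegral_add_left measurable_const]
    refine add_le_add (by simp) ?_
    rcases eq_or_ne (ct ε z y) 0 with h0 | h0
    · have h1 : ‖y.1‖ ≤ 2 * ε := by
        have := (k5 z y).1 h0
        rw [hz] at this
        simpa using this
      rw [if_pos h1]
      refine le_trans ?_ le_self_add
      calc _ ≤ ∫⁻ F, 1 ∂(poi (mB (Metric.ball (0 : V d) Q))) := lintegral_mono fun F => by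
            split_ifs
            · exact le_rfl
            · exact zero_le
        _ = 1 := by rw [lintegral_one, measure_univ]
    · by_cases h1 : ct ε z y ≤ ENNReal.ofReal t
      · have hnt : ct ε z y ≠ ⊤ := ne_top_of_le_ne_top ENNReal.ofReal_ne_top h1
        rw [if_pos (⟨pos_iff_ne_zero.2 h0, hnt⟩ : 0 < ct ε z y ∧ ct ε z y ≠ ⊤)]
        refine le_trans ?_ le_add_self
        set s := (ct ε z y).toReal with hs
        have hcs : ct ε z y = ENNReal.ofReal s := (ENNReal.ofReal_toReal hnt).symm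
        have hs0 : 0 < s := ENNReal.toReal_pos h0 hnt
        have hst : s ≤ t := by
          rw [hcs] at h1
          exact (ENNReal.ofReal_le_ofReal_iff ht).1 h1
        set r := max r₀ (s / (2 * κ)) with hr
        have hr2 : s / 2 ≤ κ * r := by
          have h3 : s / (2 * κ) ≤ r := le_max_right _ _
          have h4 : κ * (s / (2 * κ)) = s / 2 := by
            field_simp
          rw [← h4]
          exact mul_le_mul_of_nonneg_left h3 l1.le
        have hrs : s ≤ r := by
          have h3 : s / (2 * κ) ≤ r := le_max_right _ _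
          refine le_trans ?_ h3
          rw [le_div_iff₀ (by positivity)]
          nlinarith
        have hrt : r ≤ |r₀| + t / (2 * κ) := by
          have h5 : s / (2 * κ) ≤ t / (2 * κ) := by gcongr
          have h6 : 0 ≤ t / (2 * κ) := by positivity
          refine max_le ?_ ?_
          · linarith [le_abs_self r₀]
          · linarith [abs_nonneg r₀]
        have hy1 : ‖y.1‖ ≤ 2 * s + 2 * ε := by
          have := k6 z y s hs0.le hv hy hcs.le
          rw [hz] at this
          simpa using this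
        have hsb : Metric.ball y.1 r ⊆ Metric.ball (0 : V d) Q := by
          refine Metric.ball_subset_ball' ?_
          rw [dist_zero_right]
          linarith
        have hone := (hcore.one r (s / 2) 0 y (Metric.ball (0 : V d) Q) Set.univ (le_max_left _ _)
          (by positivity) hr2 hy measurableSet_ball (hball _ _) MeasurableSet.univ hsb
          (by rw [Metric.ball_zero]; exact Set.empty_subset _)
          (by rw [Metric.ball_zero]; exact Set.disjoint_empty _)).1
        have hP0 : PQ d 0 Set.univ ≤ 1 := by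
          obtain ⟨g1, -⟩ := s4 (Metric.ball (0 : V d) 0) measurableSet_ball (hball _ _)
          have := (hPO d (mB (Metric.ball (0 : V d) 0))).1
          show poi (mB (Metric.ball (0 : V d) 0)) Set.univ ≤ 1
          exact prob_le_one
        calc _ ≤ ∫⁻ F, ({F | alive ε y (s / 2) F} : Set (Finset (X d))).indicator (fun _ => 1) F
              ∂(poi (mB (Metric.ball (0 : V d) Q))) := lintegral_mono fun F => by
              simp only
              by_cases h2 : ct ε z y ≤ ENNReal.ofReal t ∧ ct ε z y ≤ dt ε (ins y F) y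
              · rw [if_pos h2, Set.indicator_of_mem]
                show ENNReal.ofReal (s / 2) < dt ε (ins y F) y
                refine lt_of_lt_of_le ?_ h2.2
                rw [hcs]
                exact (ENNReal.ofReal_lt_ofReal_iff hs0).2 (by linarith)
              · rw [if_neg h2]
                exact zero_le
          _ = poi (mB (Metric.ball (0 : V d) Q)) {F | alive ε y (s / 2) F} := by
              rw [lintegral_indicator (a6 y (s / 2)), setLIntegral_one]
          _ ≤ poi (mB (Metric.ball (0 : V d) Q)) {F | res (Metric.ball 0 0) F ∈ Set.univ ∧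
              alive ε y (s / 2) F} := measure_mono fun F hF => ⟨Set.mem_univ _, hF⟩
          _ ≤ PQ d 0 Set.univ * ENNReal.ofReal (pp d ε (s / 2) + C * Real.exp (-r)) := hone
          _ ≤ 1 * ENNReal.ofReal (pp d ε (s / 2) + C * Real.exp (-s)) := by
              gcongr
          _ = φ (ct ε z y) := by
              rw [one_mul, hφ]
      · have h2 : ∀ F : Finset (X d), (if ct ε z y ≤ ENNReal.ofReal t ∧ ct ε z y ≤ dt ε (ins y F) y
            then (1 : ℝ≥0∞) else 0) = 0 := fun F => if_neg fun h => h1 h.1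
        rw [lintegral_congr h2, lintegral_zero]
        exact zero_le
  -- the expectation
  have hE : ∫⁻ F, ∑ y ∈ F, hf ε z t y F ∂(poi (mB (Metric.ball (0 : V d) Q))) ≤ E₁ := by
    rw [hmk]
    calc ∫⁻ y, ∫⁻ F, hf ε z t y (ins y F) ∂(poi (mB (Metric.ball (0 : V d) Q)))
          ∂(mB (Metric.ball (0 : V d) Q)) ≤
        ∫⁻ y, ((if ‖y.1‖ ≤ 6 * ε then 1 else 0) + ((if ‖y.1‖ ≤ 2 * ε then 1 else 0) +
          (if 0 < ct ε z y ∧ ct ε z y ≠ ⊤ then φ (ct ε z y) else 0))) ∂(mB (Metric.ball (0 : V d) Q)) :=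
          lintegral_mono_ae (by
            filter_upwards [ae_unit (Metric.ball (0 : V d) Q) s2 s1] with y hy
            exact hpt y hy)
      _ ≤ ∫⁻ y, ((if ‖y.1‖ ≤ 6 * ε then 1 else 0) + ((if ‖y.1‖ ≤ 2 * ε then 1 else 0) +
          (if 0 < ct ε z y ∧ ct ε z y ≠ ⊤ then φ (ct ε z y) else 0)))
          ∂((volume : Measure (V d)).prod (sig d)) := lintegral_mono' (mB_le s1) le_rfl
      _ = (∫⁻ y : X d, (if ‖y.1‖ ≤ 6 * ε then 1 else 0) ∂((volume : Measure (V d)).prod (sig d))) +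
          ((∫⁻ y : X d, (if ‖y.1‖ ≤ 2 * ε then 1 else 0) ∂((volume : Measure (V d)).prod (sig d))) +
          ∫⁻ y, (if 0 < ct ε z y ∧ ct ε z y ≠ ⊤ then φ (ct ε z y) else 0)
            ∂((volume : Measure (V d)).prod (sig d))) := by
          have m1 : ∀ r : ℝ, Measurable fun y : X d => (if ‖y.1‖ ≤ r then (1 : ℝ≥0∞) else 0) := fun r =>
            Measurable.ite (measurableSet_le measurable_fst.norm measurable_const) measurable_const
              measurable_const
          rw [lintegral_add_left (m1 _), lintegral_add_left (m1 _)]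
      _ ≤ E₁ := by
          have e1 : ∀ r : ℝ, ∫⁻ y : X d, (if ‖y.1‖ ≤ r then (1 : ℝ≥0∞) else 0)
              ∂((volume : Measure (V d)).prod (sig d)) = volume (Metric.closedBall (0 : V d) r) := by
            intro r
            have hm : MeasurableSet {y : X d | ‖y.1‖ ≤ r} :=
              measurableSet_le measurable_fst.norm measurable_const
            have h3 : ∀ y : X d, (if ‖y.1‖ ≤ r then (1 : ℝ≥0∞) else 0) =
                ({y : X d | ‖y.1‖ ≤ r} : Set (X d)).indicator (fun _ => 1) y := by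
              intro y
              rfl
            rw [lintegral_congr h3, lintegral_indicator hm, setLIntegral_one, prod_fst s1]
          rw [e1, e1, hE₁]
          gcongr
          refine (c1 z hv φ hφm).trans ?_
          gcongr
  -- Markov
  have hmeas : Measurable fun F : Finset (X d) => ∑ y ∈ F, hf ε z t y F := by
    have h1 : TM (fun (p : Unit × X d) (F : Finset (X d)) => hf ε z t p.2 F) :=
      Run7.h116.Met.tm_comp hTM measurable_snd
    exact Run7.h116.Met.tm_sec (hPO3 d Unit (fun p F => hf ε z t p.2 F) h1) ()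
  have hmar := mul_meas_ge_le_lintegral₀ (μ := poi (mB (Metric.ball (0 : V d) Q)))
    hmeas.aemeasurable ((K : ℝ≥0∞) + 1)
  set S : Set (Finset (X d)) := {F | 2 * (F.filter fun y => ‖y.1‖ ≤ 6 * ε).card +
      2 * (hits ε z t F).card ≤ 2 * K} with hS
  have hSc : Sᶜ ⊆ {F | (K : ℝ≥0∞) + 1 ≤ ∑ y ∈ F, hf ε z t y F} := by
    intro F hF
    rw [Set.mem_ofPred_eq, hf_sum]
    have h1 : ¬ (2 * (F.filter fun y => ‖y.1‖ ≤ 6 * ε).card + 2 * (hits ε z t F).card ≤ 2 * K) := hF
    have h2 : K + 1 ≤ (F.filter fun y => ‖y.1‖ ≤ 6 * ε).card + (hits ε z t F).card := by omega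
    exact_mod_cast h2
  set μ := poi (mB (Metric.ball (0 : V d) Q)) with hμ
  have h5 : ((K : ℝ≥0∞) + 1) * μ Sᶜ ≤ E₁ :=
    (mul_le_mul_right (measure_mono hSc) _).trans (hmar.trans hE)
  have h6 : μ Sᶜ ≤ 1 / 2 := by
    have h7 : ((K : ℝ≥0∞) + 1) * μ Sᶜ ≤ ((K : ℝ≥0∞) + 1) * (1 / 2) := by
      refine h5.trans ?_
      have h8 : E₁ = (2 * E₁) * (1 / 2) := by
        rw [mul_comm 2 E₁, mul_assoc]
        rw [one_div, ENNReal.mul_inv_cancel (by norm_num) (by norm_num), mul_one]
      rw [h8]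
      gcongr
      exact hK.le.trans le_self_add
    rwa [ENNReal.mul_le_mul_iff_right (by simp) (by simp)] at h7
  have h9 : (1 : ℝ≥0∞) ≤ μ S + μ Sᶜ := by
    have := measure_univ_le_add_compl (μ := μ) S
    rwa [measure_univ] at this
  show (1 / 2 : ℝ≥0∞) ≤ μ S
  have h10 : (1 : ℝ≥0∞) ≤ μ S + 1 / 2 := h9.trans (add_le_add le_rfl h6)
  have h11 : (1 : ℝ≥0∞) - 1 / 2 ≤ μ S := tsub_le_iff_right.2 h10
  refine le_trans (le_of_eq ?_) h11
  rw [one_div, ENNReal.one_sub_inv_two]

end Run7.h212.Met.HB
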