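import Pool.Agent.Run7.h146.Met.I2

/-!
# Piece LIM: the survival probability is known up to an exponentially small error from a ball
-/

set_option autoImplicit false

open MeasureTheory Filter Topology ENNReal

namespace Run7.h212.Met

open Run7.h146.Met

/-- the isometry acting on meteors -/
noncomputable def eqv {d : ℕ} (O : V d ≃ₗᵢ[ℝ] V d) (a : V d) : X d ≃ᵐ X d where
  toFun z := (a + O z.1, O z.2)
  invFun z := (O.symm (z.1 - a), O.symm z.2)
  left_inv z := by simp
  right_inv z := by simp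
  measurable_toFun := by
    have hO : Measurable (O : V d → V d) := O.continuous.measurable
    exact (measurable_const.add (hO.comp measurable_fst)).prodMk (hO.comp measurable_snd)
  measurable_invFun := by
    have hO : Measurable (O.symm : V d → V d) := O.symm.continuous.measurable
    exact (hO.comp (measurable_fst.sub measurable_const)).prodMk (hO.comp measurable_snd)

theorem eqv_apply {d : ℕ} (O : V d ≃ₗᵢ[ℝ] V d) (a : V d) (z : X d) :
    eqv O a z = (a + O z.1, O z.2) := rfl

open Classical in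
theorem del_image {d : ℕ} (e : X d ≃ᵐ X d) (y : X d) (F : Finset (X d)) :
    del (e y) (F.image e) = (del y F).image e := by
  unfold del
  ext w
  simp only [Finset.mem_erase, Finset.mem_image]
  constructor
  · rintro ⟨h1, x, hx, rfl⟩
    exact ⟨x, ⟨fun h => h1 (by rw [h]), hx⟩, rfl⟩
  · rintro ⟨x, ⟨h1, hx⟩, rfl⟩
    exact ⟨fun h => h1 (e.injective h), x, hx, rfl⟩

open Classical in
theorem ins_image {d : ℕ} (e : X d ≃ᵐ X d) (y : X d) (F : Finset (X d)) :
    ins (e y) (F.image e) = (ins y F).image e := by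
  unfold ins
  ext w
  simp only [Finset.mem_insert, Finset.mem_image]
  constructor
  · rintro (rfl | ⟨x, hx, rfl⟩)
    · exact ⟨y, Or.inl rfl, rfl⟩
    · exact ⟨x, Or.inr hx, rfl⟩
  · rintro ⟨x, (rfl | hx), rfl⟩
    · exact Or.inl rfl
    · exact Or.inr ⟨x, hx, rfl⟩

open Classical in
theorem nch_image (hCT : S_CT) {d : ℕ} {ε : ℝ} (hε : 0 < ε) (O : V d ≃ₗᵢ[ℝ] V d) (a : V d) :
    ∀ (k : ℕ) (z : X d) (s : ℝ≥0∞) (F : Finset (X d)),
      nch ε k (eqv O a z) s (F.image (eqv O a)) = nch ε k z s F := by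
  intro k
  induction k with
  | zero => intro z s F; rfl
  | succ k ih =>
    intro z s F
    unfold nch
    rw [Finset.sum_image (fun x _ y _ h => (eqv O a).injective h)]
    refine Finset.sum_congr rfl fun y hy => ?_
    have h1 : ct ε (eqv O a z) (eqv O a y) = ct ε z y := (hCT d ε hε).2.2.2.2.2.2 O a z y
    rw [h1, del_image, ih]

open Classical in
theorem res_image {d : ℕ} (O : V d ≃ₗᵢ[ℝ] V d) (a x : V d) (r : ℝ) (F : Finset (X d)) :
    res (Metric.ball (a + O x) r) (F.image (eqv O a)) = (res (Metric.ball x r) F).image (eqv O a) := by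
  unfold res
  ext w
  simp only [Finset.mem_filter, Finset.mem_image, Metric.mem_ball]
  constructor
  · rintro ⟨⟨y, hy, rfl⟩, h⟩
    refine ⟨y, ⟨hy, ?_⟩, rfl⟩
    rw [eqv_apply] at h
    simpa using h
  · rintro ⟨y, ⟨hy, h⟩, rfl⟩
    refine ⟨⟨y, hy, rfl⟩, ?_⟩
    rw [eqv_apply]
    simpa using h

open Classical in
theorem Loc_image (hCT : S_CT) {d : ℕ} {ε : ℝ} (hε : 0 < ε) (κ r : ℝ) (O : V d ≃ₗᵢ[ℝ] V d)
    (a : V d) (z : X d) (F : Finset (X d)) :
    Loc ε κ r (eqv O a z) (F.image (eqv O a)) ↔ Loc ε κ r z F := by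
  unfold Loc
  have h1 : (eqv O a z).1 = a + O z.1 := rfl
  rw [h1, res_image, nch_image hCT hε]

open Classical in
theorem alive_image (hDIN : S_DIN) {d : ℕ} {ε : ℝ} (hε : 0 < ε) (t : ℝ) (O : V d ≃ₗᵢ[ℝ] V d)
    (a : V d) (z : X d) (F : Finset (X d)) :
    alive ε (eqv O a z) t (F.image (eqv O a)) ↔ alive ε z t F := by
  unfold alive
  rw [ins_image]
  have h1 := hDIN d ε hε O a (ins z F) z
  have h2 : dt ε ((ins z F).image (eqv O a)) (eqv O a z) = dt ε (ins z F) z := by
    rw [← h1]
    rfl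
  rw [h2]

theorem res_idem {d : ℕ} (B : Set (V d)) (F : Finset (X d)) : res B (res B F) = res B F := by
  unfold res
  ext w
  simp only [Finset.mem_filter, and_assoc, and_self]

theorem Loc_res {d : ℕ} (ε κ r : ℝ) (z : X d) (F : Finset (X d)) :
    Loc ε κ r z (res (Metric.ball z.1 r) F) ↔ Loc ε κ r z F := by
  unfold Loc
  rw [res_idem]

/-- the probability of existence and locality in the ball -/
noncomputable def qr {d : ℕ} (ε κ r t : ℝ) (z : X d) : ℝ≥0∞ :=
  poi (mB (Metric.ball z.1 r)) {F | alive ε z t F ∧ Loc ε κ r z F}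

open Classical in
theorem qr_inv (hMB : S_MB) (hMAP : S_MAP) (hCT : S_CT) (hDIN : S_DIN) (hME : S_MEAS) {d : ℕ}
    {ε : ℝ} (hd : 0 < d) (hε : 0 < ε) (κ r t : ℝ) (z z' : X d) (hz : ‖z.2‖ = 1)
    (hz' : ‖z'.2‖ = 1) : qr ε κ r t z = qr ε κ r t z' := by
  obtain ⟨O, hO⟩ : ∃ O : V d ≃ₗᵢ[ℝ] V d, O z.2 = z'.2 :=
    ⟨_, Submodule.reflection_sub (hz.trans hz'.symm)⟩
  obtain ⟨a, ha⟩ : ∃ a : V d, a + O z.1 = z'.1 := ⟨z'.1 - O z.1, by abel⟩
  have he : eqv O a z = z' := by
    rw [eqv_apply, ha, hO]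
  have hvol : volume (Metric.ball z.1 r) ≠ ⊤ := Metric.isBounded_ball.measure_lt_top.ne
  obtain ⟨m1, m2, m3, m4⟩ := (hMB d hd).2.2.2 (Metric.ball z.1 r) measurableSet_ball hvol
  have hb : (fun x => a + O x) '' (Metric.ball z.1 r) = Metric.ball z'.1 r := by
    ext x
    simp only [Set.mem_image, Metric.mem_ball]
    constructor
    · rintro ⟨y, hy, rfl⟩
      rw [← ha]
      simpa using hy
    · intro hx
      refine ⟨O.symm (x - a), ?_, by simp⟩
      rw [← ha] at hx
      rw [← O.dist_map]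
      have : O (O.symm (x - a)) = x - a := by simp
      rw [this]
      rw [dist_eq_norm] at hx ⊢
      convert hx using 2
      abel
  have hmap : (mB (Metric.ball z.1 r)).map (eqv O a) = mB (Metric.ball z'.1 r) := by
    rw [← hb, ← m3 O a]
    rfl
  obtain ⟨-, -, -, -, -, a6, -, -, a9, -⟩ := hME d ε hd hε
  set A : Set (Finset (X d)) := {F | alive ε z' t F ∧ Loc ε κ r z' F} with hA
  have hAm : MeasurableSet A := (a6 z' t).inter (a9 z' κ r)
  obtain ⟨g1, g2⟩ := hMAP d (mB (Metric.ball z.1 r)) (eqv O a) (A.indicator fun _ => 1)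
    (measurable_const.indicator hAm)
  rw [hmap, lintegral_indicator hAm, setLIntegral_one] at g2
  unfold qr
  rw [g2]
  have h3 : ∀ F : Finset (X d), A.indicator (fun _ => (1 : ℝ≥0∞)) (F.image (eqv O a)) =
      ({F | alive ε z t F ∧ Loc ε κ r z F} : Set (Finset (X d))).indicator (fun _ => 1) F := by
    intro F
    have h4 : F.image (eqv O a) ∈ A ↔ F ∈ ({F | alive ε z t F ∧ Loc ε κ r z F} : Set (Finset (X d))) := by
      rw [hA, Set.mem_ofPred_eq, Set.mem_ofPred_eq, ← he, alive_image hDIN hε, Loc_image hCT hε]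
    by_cases h5 : F ∈ ({F | alive ε z t F ∧ Loc ε κ r z F} : Set (Finset (X d)))
    · rw [Set.indicator_of_mem h5, Set.indicator_of_mem (h4.2 h5)]
    · rw [Set.indicator_of_notMem h5, Set.indicator_of_notMem (fun h => h5 (h4.1 h))]
  have hm : MeasurableSet ({F | alive ε z t F ∧ Loc ε κ r z F} : Set (Finset (X d))) :=
    (a6 z t).inter (a9 z κ r)
  rw [lintegral_congr h3, lintegral_indicator hm, setLIntegral_one]

theorem t_LIM : S_PO1 → S_MK → S_MB → S_IND → S_MAP → S_CT → S_DYN → S_DIN → S_MEAS → S_LIM := by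
  intro hPO hMK hMB hIND hMAP hCT hDYN hDIN hME d ε κ C r₀ hd hε hLoc r t z hr ht htr hz
  obtain ⟨l1, l2, l3, l4, l5, l6⟩ := hLoc
  obtain ⟨-, -, -, -, -, a6, -, -, a9, -⟩ := hME d ε hd hε
  obtain ⟨s1, s2, -, s4⟩ := hMB d hd
  have hC : 0 ≤ C * Real.exp (-r) := by positivity
  -- the ghost
  have hball : ∀ (x : V d) (R : ℝ), volume (Metric.ball x R) ≠ ⊤ := fun x R =>
    Metric.isBounded_ball.measure_lt_top.ne
  set q := qr ε κ r t z with hq
  have hbd : ∀ (Q : ℝ), r ≤ Q → ∀ v : V d, ‖v‖ = 1 →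
      q ≤ PQ d Q {F | alive ε ((0 : V d), v) t F} ∧
      PQ d Q {F | alive ε ((0 : V d), v) t F} ≤ q + ENNReal.ofReal (C * Real.exp (-r)) := by
    intro Q hQ v hv
    set w : X d := ((0 : V d), v) with hw
    have hqw : q = qr ε κ r t w := qr_inv hMB hMAP hCT hDIN hME hd hε κ r t z w hz hv
    obtain ⟨f1, f2, -, f4⟩ := s4 (Metric.ball (0 : V d) Q) measurableSet_ball (hball _ _)
    have hmk := (hMK d (mB (Metric.ball (0 : V d) Q))).2 w
    -- independence
    set A : Set (Finset (X d)) := {F | alive ε w t F ∧ Loc ε κ r w F} with hA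
    have hAm : MeasurableSet A := (a6 w t).inter (a9 w κ r)
    have hi := hIND d (Metric.ball (0 : V d) Q) (Metric.ball (0 : V d) r) ∅ ∅ hd
      measurableSet_ball (hball _ _) measurableSet_ball MeasurableSet.empty MeasurableSet.empty
      (Metric.ball_subset_ball hQ) (Set.empty_subset _) (Set.empty_subset _)
      (Set.disjoint_empty _) (Set.disjoint_empty _) (Set.disjoint_empty _)
      (A.indicator fun _ => 1) (fun _ => 1) (fun _ => 1) (measurable_const.indicator hAm)
      measurable_const measurable_const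
    have hi2 := hi.2.1
    rw [lintegral_indicator hAm, setLIntegral_one] at hi2
    have hset : ∀ F : Finset (X d), A.indicator (fun _ => (1 : ℝ≥0∞)) (res (Metric.ball (0 : V d) r) F) =
        ({F | res (Metric.ball (0 : V d) r) F ∈ A} : Set (Finset (X d))).indicator (fun _ => 1) F := by
      intro F
      rfl
    have hpre : MeasurableSet ({F | res (Metric.ball (0 : V d) r) F ∈ A} : Set (Finset (X d))) := by
      have := hi.1
      have h2 : ({F | res (Metric.ball (0 : V d) r) F ∈ A} : Set (Finset (X d))) =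
          (fun F => A.indicator (fun _ => (1 : ℝ≥0∞)) (res (Metric.ball (0 : V d) r) F)) ⁻¹' {1} := by
        ext F
        simp only [Set.mem_ofPred_eq, Set.mem_preimage, Set.mem_singleton_iff]
        by_cases h : res (Metric.ball (0 : V d) r) F ∈ A
        · simp [h]
        · simp [h]
      rw [h2]
      exact this (measurableSet_singleton 1)
    rw [lintegral_congr hset, lintegral_indicator hpre, setLIntegral_one] at hi2
    -- almost sure statement
    have hae : ∀ᵐ F ∂(PQ d Q), (∀ y ∈ F, ‖y.2‖ = 1) ∧ w ∉ F := by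
      rw [ae_iff]
      refine measure_mono_null (t := {F : Finset (X d) | ∃ z ∈ F, ‖z.2‖ ≠ 1} ∪ {F | w ∈ F}) ?_
        (measure_union_null f4 hmk)
      intro F hF
      by_contra h
      rw [Set.mem_union, not_or] at h
      apply hF
      refine ⟨fun y hy => ?_, h.2⟩
      by_contra h3
      exact h.1 ⟨y, hy, h3⟩
    have hLr : ∀ F : Finset (X d), Loc ε κ r w (res (Metric.ball (0 : V d) r) F) ↔ Loc ε κ r w F :=
      fun F => Loc_res ε κ r w F
    constructor
    · rw [hqw]
      show poi (mB (Metric.ball (0 : V d) r)) A ≤ _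
      rw [← hi2]
      refine measure_mono_ae ?_
      filter_upwards [hae] with F hF hFA
      have h1 : res (Metric.ball (0 : V d) r) F ∈ A := hFA
      have h2 : Loc ε κ r w F := (hLr F).1 h1.2
      exact (l5 F w r t hF.1 hv hF.2 hr ht htr h2).2 h1.1
    · rw [hqw]
      show _ ≤ poi (mB (Metric.ball (0 : V d) r)) A + _
      rw [← hi2]
      refine le_trans ?_ (add_le_add le_rfl (l6 (Metric.ball (0 : V d) Q) measurableSet_ball
        (hball _ _) r w hr hv))
      refine le_trans (measure_mono_ae (t := {F | res (Metric.ball (0 : V d) r) F ∈ A} ∪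
        {F | ¬ Loc ε κ r w F}) ?_) (measure_union_le _ _)
      filter_upwards [hae] with F hF hFA
      by_cases h2 : Loc ε κ r w F
      · left
        exact ⟨(l5 F w r t hF.1 hv hF.2 hr ht htr h2).1 hFA, (hLr F).2 h2⟩
      · right
        exact h2
  -- the integrals
  have hin : ∀ Q : ℕ, r ≤ Q → q ≤ ∫⁻ v, PQ d Q {F | alive ε ((0 : V d), v) t F} ∂(sig d) ∧
      ∫⁻ v, PQ d Q {F | alive ε ((0 : V d), v) t F} ∂(sig d) ≤ q + ENNReal.ofReal (C * Real.exp (-r)) := by
    intro Q hQ
    have hun : ∀ᵐ v ∂(sig d), ‖v‖ = 1 := by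
      rw [ae_iff]
      exact s2
    constructor
    · calc q = ∫⁻ v, q ∂(sig d) := by simp
        _ ≤ _ := lintegral_mono_ae (by
          filter_upwards [hun] with v hv
          exact (hbd Q hQ v hv).1)
    · calc _ ≤ ∫⁻ v, (q + ENNReal.ofReal (C * Real.exp (-r))) ∂(sig d) := lintegral_mono_ae (by
          filter_upwards [hun] with v hv
          exact (hbd Q hQ v hv).2)
        _ = _ := by simp
  set L := limsup (fun Q : ℕ => ∫⁻ v, PQ d Q {F | alive ε ((0 : V d), v) t F} ∂(sig d)) atTop with hL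
  have hev : ∀ᶠ Q : ℕ in atTop, r ≤ Q := by
    filter_upwards [eventually_ge_atTop ⌈r⌉₊] with Q hQ
    exact (Nat.le_ceil r).trans (by exact_mod_cast hQ)
  have hL1 : q ≤ L := by
    rw [hL]
    refine le_limsup_of_frequently_le' (Eventually.frequently ?_)
    filter_upwards [hev] with Q hQ
    exact (hin Q hQ).1
  have hL2 : L ≤ q + ENNReal.ofReal (C * Real.exp (-r)) := by
    rw [hL]
    refine limsup_le_of_le (h := ?_)
    filter_upwards [hev] with Q hQ
    exact (hin Q hQ).2
  obtain ⟨f1, f2, -, f4⟩ := s4 (Metric.ball z.1 r) measurableSet_ball (hball _ _)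
  have hprob := (hPO d (mB (Metric.ball z.1 r))).1
  have hq1 : q ≤ 1 := by
    rw [hq]
    exact prob_le_one
  have hLt : L ≠ ⊤ := by
    refine ne_top_of_le_ne_top ?_ hL2
    exact ENNReal.add_ne_top.2 ⟨ne_top_of_le_ne_top ENNReal.one_ne_top hq1, ENNReal.ofReal_ne_top⟩
  have hpp : ENNReal.ofReal (pp d ε t) = L := by
    show ENNReal.ofReal (L.toReal) = L
    exact ENNReal.ofReal_toReal hLt
  have hpp0 : 0 ≤ pp d ε t := ENNReal.toReal_nonneg
  constructor
  · rw [ENNReal.ofReal_add hpp0 hC, hpp]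
    refine le_trans ?_ (add_le_add hL1 (l6 (Metric.ball z.1 r) measurableSet_ball
      (hball _ _) r z hr hz))
    refine le_trans (measure_mono (t := {F | alive ε z t F ∧ Loc ε κ r z F} ∪
      {F | ¬ Loc ε κ r z F}) ?_) (measure_union_le _ _)
    rintro F (hF | hF)
    · by_cases h2 : Loc ε κ r z F
      · exact Or.inl ⟨hF, h2⟩
      · exact Or.inr h2
    · exact Or.inr hF
  · rw [ENNReal.ofReal_sub _ hC, hpp]
    exact tsub_le_iff_right.2 hL2

end Run7.h212.Met
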