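import Pool.Agent.Run7.h146.Met.I2

/-!
# Piece OCV: each meteor of unit speed covers the origin at a bounded number of integer times
-/

set_option autoImplicit false

open MeasureTheory Filter Topology ENNReal

namespace Run7.h212.Met

open Run7.h146.Met

theorem dist_pos {d : ℕ} (z : X d) (hz : ‖z.2‖ = 1) (s t : ℝ) : ‖pos z s - pos z t‖ = |s - t| := by
  have h : pos z s - pos z t = (s - t) • z.2 := by
    unfold pos
    rw [sub_smul]
    abel
  rw [h, norm_smul, hz, mul_one, Real.norm_eq_abs]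

open Classical in
theorem card_le {d : ℕ} {ε : ℝ} (hε : 0 < ε) (z : X d) (hz : ‖z.2‖ = 1) (N : ℕ) (Q : ℕ → Prop) :
    (((Finset.range (N + 1)).filter fun n : ℕ => Q n ∧ ‖pos z (n : ℝ)‖ ≤ ε).card : ℝ) ≤
      2 * ε + 1 := by
  set S := (Finset.range (N + 1)).filter fun n : ℕ => Q n ∧ ‖pos z (n : ℝ)‖ ≤ ε with hS
  rcases S.eq_empty_or_nonempty with h | h
  · rw [h]
    simp only [Finset.card_empty, Nat.cast_zero]
    linarith
  · have hm := S.min'_mem h
    have hsub : S ⊆ Finset.Icc (S.min' h) (S.min' h + ⌊2 * ε⌋₊) := by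
      intro n hn
      have h1 := S.min'_le n hn
      rw [Finset.mem_Icc]
      refine ⟨h1, ?_⟩
      have h2 : ‖pos z (n : ℝ)‖ ≤ ε := (Finset.mem_filter.1 hn).2.2
      have h3 : ‖pos z ((S.min' h : ℕ) : ℝ)‖ ≤ ε := (Finset.mem_filter.1 hm).2.2
      have h4 := dist_pos z hz (n : ℝ) ((S.min' h : ℕ) : ℝ)
      have h5 : |(n : ℝ) - ((S.min' h : ℕ) : ℝ)| ≤ 2 * ε := by
        rw [← h4]
        calc _ ≤ ‖pos z (n : ℝ)‖ + ‖pos z ((S.min' h : ℕ) : ℝ)‖ := norm_sub_le _ _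
          _ ≤ 2 * ε := by linarith
      have h6 : ((n - S.min' h : ℕ) : ℝ) ≤ 2 * ε := by
        rw [Nat.cast_sub h1]
        exact (le_abs_self _).trans h5
      have h7 : n - S.min' h ≤ ⌊2 * ε⌋₊ := Nat.le_floor h6
      omega
    have h8 := Finset.card_le_card hsub
    rw [Nat.card_Icc] at h8
    have h9 : S.card ≤ ⌊2 * ε⌋₊ + 1 := by omega
    have h10 : ((⌊2 * ε⌋₊ : ℕ) : ℝ) ≤ 2 * ε := Nat.floor_le (by linarith)
    calc (S.card : ℝ) ≤ ((⌊2 * ε⌋₊ + 1 : ℕ) : ℝ) := by exact_mod_cast h9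
      _ ≤ 2 * ε + 1 := by push_cast; linarith

open Classical in
theorem t_OCV : S_OCV := by
  intro d ε hε F N hF
  unfold Un Occ
  rw [Finset.sum_comm]
  have key : ∀ z ∈ F, (∑ n ∈ Finset.range (N + 1),
      (if ENNReal.ofReal (n : ℝ) < dt ε F z ∧ ‖pos z (n : ℝ)‖ ≤ ε then (1 : ℝ≥0∞) else 0)) ≤
      if (∃ t, 0 ≤ t ∧ t ≤ (N : ℝ) ∧ ENNReal.ofReal t < dt ε F z ∧ ‖pos z t‖ ≤ ε) then
        ENNReal.ofReal (2 * ε + 1) else 0 := by
    intro z hz
    split_ifs with h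
    · rw [Finset.sum_boole]
      have h1 := card_le hε z (hF z hz) N (fun n => ENNReal.ofReal (n : ℝ) < dt ε F z)
      have h2 := ENNReal.ofReal_le_ofReal h1
      rw [ENNReal.ofReal_natCast] at h2
      convert h2
    · refine le_of_eq (Finset.sum_eq_zero fun n hn => ?_)
      rw [if_neg]
      rintro ⟨h1, h2⟩
      apply h
      refine ⟨(n : ℝ), Nat.cast_nonneg n, ?_, h1, h2⟩
      have := Finset.mem_range.1 hn
      exact_mod_cast (by omega : n ≤ N)
  refine (Finset.sum_le_sum key).trans ?_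
  rw [← Finset.sum_filter, Finset.sum_const, nsmul_eq_mul, mul_comm]

end Run7.h212.Met
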